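import Pool.Agent.Lib.MP_edb0ca_an.Main

/-!
# Repelling fixed points of iterates in Berkovich hyperbolic space

Full (positive) answer to the question: if the Lyapunov exponent of `R` with respect to its
equilibrium measure is positive, then the number of repelling fixed points of `R ^ n` in
hyperbolic space, counted with local degree, is `o (d ^ n)`.

All the definitions used in the statement are in `Pool.Agent.Lib.MP_edb0ca_an.Defs`:

* `A1 K`, `P1 K`: the Berkovich affine line (multiplicative seminorms on `K[X]` extending the
  absolute value, topology of pointwise convergence) and the Berkovich projective line (its
  one-point compactification), `cl`: the classical points, `Hyp`: the hyperbolic (non-classical)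
  points;
* `RMap K`, `RMap.deg`, `RMap.comp`, `iter`: rational maps, degree, composition, iterates,
  `RMap.map`: the action on the Berkovich line, `RMap.fib`: fibres over classical points;
* `localDegree`: the local degree, `RFixH R n`: the repelling fixed points of `R ^ n` in
  hyperbolic space;
* `RMap.sph`: the spherical derivative on the Berkovich line, `IsEquilibrium R ρ`: `ρ` is the
  equilibrium measure of `R`, `lyap R ρ`: the Lyapunov exponent.

Idea of the proof. A combinatorial counting theorem on the tree (`wgt_count_total`) bounds the
total weight `∑ (deg - 1)` of the critical fixed points `ζ(c,r)` of a map of degree `D` lying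
outside a family of disjoint open balls `V` by `D - 1 - ∑ τ(V)`, where `τ(V)` is roughly the
number of preimages in `V` of a generic point. For `R ^ n` one has `τ(V) ≥ (ρ(V) - ε) d ^ n`
(`tauO_lower`), so that the weight sits where the equilibrium measure does; there, by ergodicity
of `ρ`, the Birkhoff averages of the truncated logarithm of the spherical derivative are close to
its integral `≥ χ > 0`. On the other hand the product of the spherical derivatives along a fixed
point of `R ^ n` in hyperbolic space is at most one. The poles of the logarithm (critical points of
`R`) are controlled by `tail_small`: either the critical point returns very close to itself, and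
then hyperbolic periodic points stay away from it, or it does not, and then only `O(n)` scales
matter. Non-classical points which are not of the form `ζ(c,r)` are never repelling fixed points.
-/

open Filter Topology MeasureTheory BerkFix

namespace Pool.Agent.Results.MP_edb0ca_an.HypRepellingNegligible

/-- Let `K` be an algebraically closed field, complete for a nontrivial non-Archimedean absolute
value, `R` a rational map over `K` of degree `d ≥ 2` and `ρ` its equilibrium measure. If the
Lyapunov exponent of `R` is positive, then `d ^ (-n)` times the sum of the local degrees
`deg_{R^n}(x)` over the repelling fixed points `x` of `R ^ n` in hyperbolic space tends to `0`. -/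
theorem result {K : Type*} [NontriviallyNormedField K] [IsUltrametricDist K] [CompleteSpace K]
    [IsAlgClosed K] (R : RMap K) (hR : 2 ≤ R.deg) (ρ : Measure (P1 K)) (hρ : IsEquilibrium R ρ)
    (hχ : 0 < lyap R ρ) :
    Tendsto (fun n : ℕ => (∑' x : RFixH R n, (localDegree (iter R n) (x : P1 K) : ENNReal)) /
      (R.deg : ENNReal) ^ n) atTop (𝓝 0) :=
  main_tendsto hR hρ hχ

end Pool.Agent.Results.MP_edb0ca_an.HypRepellingNegligible
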